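import Mathlib

/-!
# Relatively free groups of the variety generated by one group
-/

set_option autoImplicit false

namespace Pool.Agent.H319.RAD

/-- the elements of the free group which are trivial under all homomorphisms to `Γ` -/
def KF (Γ : Type) [Group Γ] (I : Type) : Subgroup (FreeGroup I) :=
  ⨅ θ : FreeGroup I →* Γ, θ.ker

variable {Γ : Type} [Group Γ] {I : Type}

theorem mem_KF (g : FreeGroup I) : g ∈ KF Γ I ↔ ∀ θ : FreeGroup I →* Γ, θ g = 1 := by
  unfold KF
  rw [Subgroup.mem_iInf]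
  rfl

instance : (KF Γ I).Normal := ⟨fun n hn g => by
  rw [mem_KF] at hn ⊢
  intro θ
  rw [map_mul, map_mul, hn, mul_one, map_inv, mul_inv_cancel]⟩

/-- the relatively free group -/
abbrev RF (Γ : Type) [Group Γ] (I : Type) : Type := FreeGroup I ⧸ KF Γ I

/-- the free generators -/
def gx (Γ : Type) [Group Γ] {I : Type} (i : I) : RF Γ I := (FreeGroup.of i : FreeGroup I)

theorem gx_closure : Subgroup.closure (Set.range (gx Γ : I → RF Γ I)) = ⊤ := by
  have h1 : Set.range (gx Γ : I → RF Γ I) =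
      (QuotientGroup.mk' (KF Γ I)) '' Set.range FreeGroup.of := by
    rw [← Set.range_comp]
    rfl
  rw [h1, ← MonoidHom.map_closure, FreeGroup.closure_range_of, ← MonoidHom.range_eq_map,
    MonoidHom.range_eq_top]
  exact QuotientGroup.mk'_surjective _

/-- extension of maps to endomorphisms -/
theorem gx_ext (m : I → RF Γ I) : ∃ h : RF Γ I →* RF Γ I, ∀ i, h (gx Γ i) = m i := by
  choose n hn using fun i => QuotientGroup.mk'_surjective (KF Γ I) (m i)
  have h1 : ∀ g ∈ KF Γ I, ((QuotientGroup.mk' (KF Γ I)).comp (FreeGroup.lift n)) g = 1 := by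
    intro g hg
    show ((FreeGroup.lift n g : FreeGroup I) : RF Γ I) = 1
    rw [QuotientGroup.eq_one_iff, mem_KF]
    intro θ
    exact (mem_KF g).1 hg (θ.comp (FreeGroup.lift n))
  refine ⟨QuotientGroup.lift (KF Γ I) _ h1, fun i => ?_⟩
  show QuotientGroup.mk' (KF Γ I) (FreeGroup.lift n (FreeGroup.of i)) = m i
  rw [FreeGroup.lift_apply_of, hn]

/-- homomorphisms to `Γ` -/
theorem gx_hom (m : I → Γ) : ∃ θ : RF Γ I →* Γ, ∀ i, θ (gx Γ i) = m i := by
  refine ⟨QuotientGroup.lift (KF Γ I) (FreeGroup.lift m) (fun g hg => (mem_KF g).1 hg _),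
    fun i => ?_⟩
  show FreeGroup.lift m (FreeGroup.of i) = m i
  rw [FreeGroup.lift_apply_of]

/-- homomorphisms to `Γ` separate the elements -/
theorem RF_sep (q : RF Γ I) (h : ∀ θ : RF Γ I →* Γ, θ q = 1) : q = 1 := by
  obtain ⟨g, rfl⟩ := QuotientGroup.mk'_surjective (KF Γ I) q
  show ((g : FreeGroup I) : RF Γ I) = 1
  rw [QuotientGroup.eq_one_iff, mem_KF]
  intro θ
  exact h (QuotientGroup.lift (KF Γ I) θ (fun g hg => (mem_KF g).1 hg _))

theorem RF_eq (q q' : RF Γ I) (h : ∀ θ : RF Γ I →* Γ, θ q = θ q') : q = q' := by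
  have := RF_sep (q * q'⁻¹) (fun θ => by rw [map_mul, map_inv, h, mul_inv_cancel])
  exact mul_inv_eq_one.1 this

theorem gx_inj (hΓ : ∃ g : Γ, g ≠ 1) : Function.Injective (gx Γ : I → RF Γ I) := by
  classical
  intro i j hij
  by_contra hne
  obtain ⟨g, hg⟩ := hΓ
  obtain ⟨θ, hθ⟩ := gx_hom (fun k : I => if k = i then g else 1)
  have h1 := congrArg θ hij
  rw [hθ, hθ, if_pos rfl, if_neg (Ne.symm hne)] at h1
  exact hg h1

end Pool.Agent.H319.RAD
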