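import Pool.Agent.H319.RAD.Next
import Pool.Graph.R_seed8.Y872.MON.LimB

/-!
# Central extensions of the stages
-/

set_option autoImplicit false

namespace Pool.Agent.H319.RAD

open Pool.Agent.TH54.BU Pool.Agent.Y45.MON Pool.Agent.Y864.MON Pool.Agent.Y872.MON

section words

variable {r : ℕ} (w : WP r) {G G' : Type} [Group G] [Group G']

theorem map_vv (φ : G →* G') (j : Fin r) (a b : G) : φ (vv w j a b) = vv w j (φ a) (φ b) := by
  rw [vv, map_Wj, map_X1]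
  rfl

theorem conj_vv (u : G) (j : Fin r) (a b : G) :
    vv w j (u * a * u⁻¹) (u * b * u⁻¹) = u * vv w j a b * u⁻¹ := by
  rw [vv, conj_X1, conj_Wj]
  rfl

/-- central factors do not change the values of the first words -/
theorem X1_cen (M m : ℕ) (a b z z' : G) (hz : ∀ g, z * g = g * z) (hz' : ∀ g, z' * g = g * z') :
    X1 M m (a * z) (b * z') = X1 M m a b := by
  have h1 : P0 M (a * z) (b * z') = P0 M a b * (z * z ^ M) := by
    have e1 : (a * z) ^ M = a ^ M * z ^ M := (Commute.mul_pow (hz a).symm M)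
    have e2 : ∀ g, z ^ M * g = g * z ^ M := fun g => (Commute.pow_left (hz g) M).eq
    simp only [P0, e1, mul_inv_rev]
    calc a * z * (b * z') * (a ^ M * z ^ M) * (z'⁻¹ * b⁻¹)
        = a * (z * (b * z')) * a ^ M * (z ^ M * (z'⁻¹ * b⁻¹)) := by group
      _ = a * ((b * z') * z) * a ^ M * ((z'⁻¹ * b⁻¹) * z ^ M) := by rw [hz, e2]
      _ = a * b * (z' * (z * a ^ M * z'⁻¹)) * b⁻¹ * z ^ M := by group
      _ = a * b * ((z * a ^ M * z'⁻¹) * z') * b⁻¹ * z ^ M := by rw [hz']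
      _ = a * b * (z * (a ^ M * b⁻¹)) * z ^ M := by group
      _ = a * b * (a ^ M * b⁻¹ * z) * z ^ M := by rw [hz]
      _ = a * b * a ^ M * b⁻¹ * (z * z ^ M) := by group
  have h2 : ∀ g, (z * z ^ M) * g = g * (z * z ^ M) := fun g =>
    (Commute.mul_left (hz g) (Commute.pow_left (hz g) M)).eq
  have h3 : (P0 M a b * (z * z ^ M)) ^ m = P0 M a b ^ m * (z * z ^ M) ^ m :=
    Commute.mul_pow (h2 _).symm m
  have h4 : ∀ g, (z * z ^ M) ^ m * g = g * (z * z ^ M) ^ m := fun g =>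
    (Commute.pow_left (h2 g) m).eq
  simp only [X1, h1, h3]
  generalize P0 M a b ^ m = P
  generalize (z * z ^ M) ^ m = t at h4
  calc a * z * (P * t) * (a * z)⁻¹ * (P * t)⁻¹
      = a * (z * (P * t)) * (z⁻¹ * a⁻¹) * (t⁻¹ * P⁻¹) := by group
    _ = a * ((P * t) * z) * (z⁻¹ * a⁻¹) * (t⁻¹ * P⁻¹) := by rw [hz]
    _ = a * P * (t * a⁻¹) * t⁻¹ * P⁻¹ := by group
    _ = a * P * (a⁻¹ * t) * t⁻¹ * P⁻¹ := by rw [h4]
    _ = a * P * a⁻¹ * P⁻¹ := by group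

/-- central factors do not change the values of the words with `δ = 1` -/
theorem vv_cen (j : Fin r) (hδ : w.δ j = 1) (a b z z' : G) (hz : ∀ g, z * g = g * z)
    (hz' : ∀ g, z' * g = g * z') : vv w j (a * z) (b * z') = vv w j a b := by
  rw [vv, vv, X1_cen w.M1 w.m2 a b z z' hz hz']
  simp only [Wj, hδ, pow_one, mul_inv_rev]
  generalize X1 w.M1 w.m2 a b = X
  generalize X ^ w.e j 0 = X0
  generalize X ^ w.e j 1 = Y1
  generalize X ^ w.e j 2 = Y2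
  generalize X ^ w.e j 3 = Y3
  have hzi : ∀ g, z⁻¹ * g = g * z⁻¹ := fun g => (Commute.inv_left (hz g)).eq
  have hzi' : ∀ g, z'⁻¹ * g = g * z'⁻¹ := fun g => (Commute.inv_left (hz' g)).eq
  calc a * z * X0 * (b * z') * Y1 * (z⁻¹ * a⁻¹) * Y2 * (z'⁻¹ * b⁻¹) * Y3
      = a * (z * (X0 * b * z' * Y1)) * z⁻¹ * a⁻¹ * Y2 * z'⁻¹ * b⁻¹ * Y3 := by group
    _ = a * ((X0 * b * z' * Y1) * z) * z⁻¹ * a⁻¹ * Y2 * z'⁻¹ * b⁻¹ * Y3 := by rw [hz]
    _ = a * X0 * b * (z' * (Y1 * a⁻¹ * Y2)) * z'⁻¹ * b⁻¹ * Y3 := by group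
    _ = a * X0 * b * ((Y1 * a⁻¹ * Y2) * z') * z'⁻¹ * b⁻¹ * Y3 := by rw [hz']
    _ = a * X0 * b * Y1 * a⁻¹ * Y2 * b⁻¹ * Y3 := by group

end words

variable {r : ℕ} {w : WP r} {R0 K B T N : ℕ} {C Z : Type} [CommGroup Z]

/-- a central extension of a stage by `Z`, with marked elements -/
structure SE {r : ℕ} (K B T N : ℕ) (C : Type) (Z : Type) [CommGroup Z] : Type 1 where
  s : Stage (r := r) K B T N C
  Γ : Type
  gr : Group Γ
  φ : Γ →* s.G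
  ι : Z →* Γ
  sur : Function.Surjective φ
  inj : Function.Injective ι
  ker : ∀ γ, φ γ = 1 → ∃ z, ι z = γ
  one : ∀ z, φ (ι z) = 1
  cen : ∀ z γ, ι z * γ = γ * ι z
  Mg : Γ → Fin r → C → C → Prop
  mgk : ∀ γ j c c', Mg γ j c c' → s.Mk (φ γ) j c c'
  mgs : ∀ γ j c c', Mg γ j c c' → ¬ IsOfFinOrder (φ γ) ∧
    (∃ u : s.G, s.H.len (u * φ γ * u⁻¹) ≤ 1) ∧ ∀ q, q * φ γ = φ γ * q → ∃ t : ℤ, q = φ γ ^ t
  mgc : ∀ (u γ : Γ) (j : Fin r) (c c' : C), Mg γ j c c' → Mg (u * γ * u⁻¹) j c c'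
  mgu : ∀ (γ γ' : Γ) (j j' : Fin r) (c c' d d' : C), Mg γ j c c' → Mg γ' j' d d' →
    φ γ = φ γ' → γ = γ'

instance (e : SE (r := r) K B T N C Z) : Group e.Γ := e.gr

/-- the relation between successive stages -/
structure RE (w : WP r) (R0 : ℕ) (Φ : Fin r → C → C → C) (ε : Fin r → C → C → ℕ)
    (χ : Fin r → C → C → Z) (e e' : SE (r := r) K B T N C Z) (f : e.s.G →* e'.s.G)
    (F : e.Γ →* e'.Γ) (Xs : Set e.s.G) : Prop where
  rel : Rel w R0 Φ ε e.s e'.s f Xs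
  cm : ∀ γ, e'.φ (F γ) = f (e.φ γ)
  io : ∀ z, F (e.ι z) = e'.ι z
  Fs : Function.Surjective F
  pw : ∀ γ j c c', e.Mg γ j c c' → F γ ^ ε j c c' = e'.ι (χ j c c')
  mg : ∀ (a b : e.Γ) (j : Fin r), w.δ j = 1 →
    Gd e.s.H (e.φ a) (e.φ b) (e.φ (X1 w.M1 w.m2 a b)) →
    e'.Mg (F (vv w j a b)) j (e'.s.col (f (e.φ a))) (e'.s.col (f (e.φ b)))

/-- the exponent of a marked element -/
theorem exo_mk {G : Type} [Group G] (N : ℕ) (ε : Fin r → C → C → ℕ)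
    (Mk : G → Fin r → C → C → Prop)
    (mku : ∀ (g : G) (j j' : Fin r) (c c' d d' : C), Mk g j c c' → Mk g j' d d' →
      j = j' ∧ c = d ∧ c' = d')
    (mki : ∀ (g : G) (j j' : Fin r) (c c' d d' : C), Mk g j c c' → ¬ Mk g⁻¹ j' d d')
    (x : G) (j : Fin r) (c c' : C) (h1 : Mk x j c c' ∨ Mk x⁻¹ j c c') :
    exo N ε Mk x = ε j c c' := by
  have h : ∃ m : Fin r × C × C, Mk x m.1 m.2.1 m.2.2 ∨ Mk x⁻¹ m.1 m.2.1 m.2.2 :=
    ⟨(j, c, c'), h1⟩
  have key : ∀ (j j' : Fin r) (c c' d d' : C), (Mk x j c c' ∨ Mk x⁻¹ j c c') →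
      (Mk x j' d d' ∨ Mk x⁻¹ j' d d') → j = j' ∧ c = d ∧ c' = d' := by
    intro j j' c c' d d' h1 h2
    rcases h1 with h1 | h1 <;> rcases h2 with h2 | h2
    · exact mku x j j' c c' d d' h1 h2
    · exact absurd h2 (mki x j j' c c' d d' h1)
    · exact absurd h1 (mki x j' j d d' c c' h2)
    · exact mku x⁻¹ j j' c c' d d' h1 h2
  unfold exo
  rw [dif_pos h]
  obtain ⟨e1, e2, e3⟩ := key _ _ _ _ _ _ h.choose_spec h1
  rw [e1, e2, e3]

namespace SE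

variable (e : SE (r := r) K B T N C Z)

theorem comm_of {a y : e.Γ} (h : e.φ a ∈ Subgroup.zpowers (e.φ y)) : Commute a y := by
  obtain ⟨k, hk⟩ := h
  have h1 : e.φ (a * (y ^ k)⁻¹) = 1 := by
    rw [map_mul, map_inv, map_zpow, ← hk, mul_inv_cancel]
  obtain ⟨z, hz⟩ := e.ker _ h1
  have h2 : a = e.ι z * y ^ k := by rw [hz]; group
  rw [h2]
  exact Commute.mul_left (e.cen z y) (Commute.zpow_self y k)

open Classical in
/-- the lifted relators -/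
noncomputable def rr (ε : Fin r → C → C → ℕ) (χ : Fin r → C → C → Z) (x : e.s.G) : e.Γ :=
  if h : ∃ m : e.Γ × Fin r × C × C, e.Mg m.1 m.2.1 m.2.2.1 m.2.2.2 ∧ e.φ m.1 = x then
    h.choose.1 ^ ε h.choose.2.1 h.choose.2.2.1 h.choose.2.2.2 *
      (e.ι (χ h.choose.2.1 h.choose.2.2.1 h.choose.2.2.2))⁻¹
  else if h : ∃ m : e.Γ × Fin r × C × C, e.Mg m.1 m.2.1 m.2.2.1 m.2.2.2 ∧ e.φ m.1 = x⁻¹ then
    (h.choose.1 ^ ε h.choose.2.1 h.choose.2.2.1 h.choose.2.2.2 *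
      (e.ι (χ h.choose.2.1 h.choose.2.2.1 h.choose.2.2.2))⁻¹)⁻¹
  else (e.sur x).choose ^ exo N ε e.s.Mk x

theorem rr_pos (ε : Fin r → C → C → ℕ) (χ : Fin r → C → C → Z) (x : e.s.G) (γ : e.Γ)
    (j : Fin r) (c c' : C) (h1 : e.Mg γ j c c') (h2 : e.φ γ = x) :
    e.rr ε χ x = γ ^ ε j c c' * (e.ι (χ j c c'))⁻¹ := by
  have h : ∃ m : e.Γ × Fin r × C × C, e.Mg m.1 m.2.1 m.2.2.1 m.2.2.2 ∧ e.φ m.1 = x :=
    ⟨(γ, j, c, c'), h1, h2⟩
  unfold rr
  rw [dif_pos h]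
  obtain ⟨h3, h4⟩ := h.choose_spec
  have h5 := e.mgu _ _ _ _ _ _ _ _ h1 h3 (h2.trans h4.symm)
  have h6 := e.mgk _ _ _ _ h1
  have h7 := e.mgk _ _ _ _ h3
  rw [h4] at h7
  rw [h2] at h6
  obtain ⟨e1, e2, e3⟩ := e.s.mku _ _ _ _ _ _ _ h6 h7
  rw [← h5, ← e1, ← e2, ← e3]

theorem rr_neg (ε : Fin r → C → C → ℕ) (χ : Fin r → C → C → Z) (x : e.s.G) (γ : e.Γ)
    (j : Fin r) (c c' : C) (h1 : e.Mg γ j c c') (h2 : e.φ γ = x⁻¹) :
    e.rr ε χ x = (γ ^ ε j c c' * (e.ι (χ j c c'))⁻¹)⁻¹ := by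
  have h : ∃ m : e.Γ × Fin r × C × C, e.Mg m.1 m.2.1 m.2.2.1 m.2.2.2 ∧ e.φ m.1 = x⁻¹ :=
    ⟨(γ, j, c, c'), h1, h2⟩
  have h6 := e.mgk _ _ _ _ h1
  rw [h2] at h6
  have h0 : ¬ ∃ m : e.Γ × Fin r × C × C, e.Mg m.1 m.2.1 m.2.2.1 m.2.2.2 ∧ e.φ m.1 = x := by
    rintro ⟨m, h3, h4⟩
    have h5 := e.mgk _ _ _ _ h3
    rw [h4] at h5
    exact e.s.mki _ _ _ _ _ _ _ h5 h6
  unfold rr
  rw [dif_neg h0, dif_pos h]
  obtain ⟨h3, h4⟩ := h.choose_spec
  have h5 := e.mgu _ _ _ _ _ _ _ _ h1 h3 (h2.trans h4.symm)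
  have h7 := e.mgk _ _ _ _ h3
  rw [h4] at h7
  obtain ⟨e1, e2, e3⟩ := e.s.mku _ _ _ _ _ _ _ h6 h7
  rw [← h5, ← e1, ← e2, ← e3]

/-- the three cases for the relators -/
theorem rr_cases (ε : Fin r → C → C → ℕ) (χ : Fin r → C → C → Z) (x : e.s.G) :
    (∃ (γ : e.Γ) (z : Z), e.φ γ = x ∧ e.rr ε χ x = γ ^ exo N ε e.s.Mk x * e.ι z) ∨
    (∃ (γ : e.Γ) (z : Z), e.φ γ = x⁻¹ ∧ e.rr ε χ x = (γ ^ exo N ε e.s.Mk x * e.ι z)⁻¹) := by
  by_cases h : ∃ m : e.Γ × Fin r × C × C, e.Mg m.1 m.2.1 m.2.2.1 m.2.2.2 ∧ e.φ m.1 = x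
  · left
    obtain ⟨⟨γ, j, c, c'⟩, h1, h2⟩ := h
    have h6 := e.mgk _ _ _ _ h1
    rw [h2] at h6
    refine ⟨γ, (χ j c c')⁻¹, h2, ?_⟩
    rw [e.rr_pos ε χ x γ j c c' h1 h2,
      exo_mk N ε e.s.Mk e.s.mku e.s.mki x j c c' (Or.inl h6), map_inv]
  by_cases h' : ∃ m : e.Γ × Fin r × C × C, e.Mg m.1 m.2.1 m.2.2.1 m.2.2.2 ∧ e.φ m.1 = x⁻¹
  · right
    obtain ⟨⟨γ, j, c, c'⟩, h1, h2⟩ := h'
    have h6 := e.mgk _ _ _ _ h1
    rw [h2] at h6
    refine ⟨γ, (χ j c c')⁻¹, h2, ?_⟩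
    rw [e.rr_neg ε χ x γ j c c' h1 h2,
      exo_mk N ε e.s.Mk e.s.mku e.s.mki x j c c' (Or.inr h6), map_inv]
  · left
    refine ⟨(e.sur x).choose, 1, (e.sur x).choose_spec, ?_⟩
    unfold rr
    rw [dif_neg h, dif_neg h', map_one, mul_one]

theorem rr_map (ε : Fin r → C → C → ℕ) (χ : Fin r → C → C → Z) (x : e.s.G) :
    e.φ (e.rr ε χ x) = x ^ exo N ε e.s.Mk x := by
  rcases e.rr_cases ε χ x with ⟨γ, z, h1, h2⟩ | ⟨γ, z, h1, h2⟩
  · rw [h2, map_mul, map_pow, h1, e.one, mul_one]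
  · rw [h2, map_inv, map_mul, map_pow, h1, e.one, mul_one, inv_pow, inv_inv]

theorem rr_comm (ε : Fin r → C → C → ℕ) (χ : Fin r → C → C → Z) (x : e.s.G) (a : e.Γ)
    (h : e.φ a ∈ Subgroup.zpowers x) : a * e.rr ε χ x = e.rr ε χ x * a := by
  rcases e.rr_cases ε χ x with ⟨γ, z, h1, h2⟩ | ⟨γ, z, h1, h2⟩
  · rw [h2]
    have h3 : Commute a γ := e.comm_of (by rwa [h1])
    exact (Commute.mul_right (h3.pow_right _) (e.cen z a).symm).eq
  · rw [h2]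
    have h3 : Commute a γ := e.comm_of (by rwa [h1, Subgroup.zpowers_inv])
    exact (Commute.mul_right (h3.pow_right _) (e.cen z a).symm).inv_right.eq

end SE

/-- existence of the next stage -/
theorem next_SE [Inhabited C] (e : SE (r := r) K B T N C Z) (Φ : Fin r → C → C → C)
    (ε : Fin r → C → C → ℕ) (χ : Fin r → C → C → Z)
    {G' : Type} [Group G'] (H' : GH G') (f : e.s.G →* G') (Xs : Set e.s.G)
    (hD : H'.D = 4) (hst : H'.Stab T) (hac : H'.Acy K B) (htor : Tor G' N)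
    (hX : StepX w R0 (exo N ε e.s.Mk) Xs e.s.H H' f) (hE : StepE (exo N ε e.s.Mk) Xs f) :
    ∃ (e' : SE (r := r) K B T N C Z) (f : e.s.G →* e'.s.G) (F : e.Γ →* e'.Γ) (Xs : Set e.s.G),
      RE w R0 Φ ε χ e e' f F Xs := by
  obtain ⟨s', f, Xs, hR, hE⟩ := exists_next' Φ e.s H' f Xs hD hst hac htor hX hE
  clear hX hst hac htor hD
  set M : Subgroup e.Γ := Subgroup.normalClosure (e.rr ε χ '' Xs) with hM
  have hMf : ∀ m ∈ M, f (e.φ m) = 1 := by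
    have h1 : M ≤ (f.comp e.φ).ker := by
      apply Subgroup.normalClosure_le_normal
      rintro _ ⟨x, hx, rfl⟩
      show f (e.φ _) = 1
      rw [e.rr_map]
      exact hE.one x hx
    exact fun m hm => h1 hm
  have hMk : ∀ m ∈ M, e.φ m = 1 → m = 1 := fun m hm h1 =>
    hE.ext e.Γ e.φ (e.rr ε χ) e.sur (fun x _ => e.rr_map ε χ x)
      (fun x _ a h => e.rr_comm ε χ x a h) m hm h1
  let φ' : e.Γ ⧸ M →* s'.G := QuotientGroup.lift M (f.comp e.φ) hMf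
  have hφ' : ∀ γ : e.Γ, φ' (γ : e.Γ ⧸ M) = f (e.φ γ) := fun γ => rfl
  let F : e.Γ →* e.Γ ⧸ M := QuotientGroup.mk' M
  have hF : ∀ γ : e.Γ, F γ = (γ : e.Γ ⧸ M) := fun _ => rfl
  have hFs : Function.Surjective F := QuotientGroup.mk'_surjective M
  have hφs : Function.Surjective φ' := by
    intro g
    obtain ⟨g0, rfl⟩ := hR.st.surj g
    obtain ⟨γ, rfl⟩ := e.sur g0
    exact ⟨F γ, rfl⟩
  have hker : ∀ γ, φ' γ = 1 → ∃ z, F (e.ι z) = γ := by
    intro q hq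
    obtain ⟨γ, rfl⟩ := hFs q
    have h1 : f (e.φ γ) = 1 := hq
    have h2 := hE.ker _ h1
    have h3 : Subgroup.normalClosure ((fun x => x ^ exo N ε e.s.Mk x) '' Xs) =
        M.map e.φ := by
      rw [hM, Subgroup.map_normalClosure _ _ e.sur, Set.image_image]
      congr 1
      apply Set.image_congr
      intro x _
      exact (e.rr_map ε χ x).symm
    rw [h3] at h2
    obtain ⟨m, hm, h4⟩ := h2
    have h5 : e.φ (γ * m⁻¹) = 1 := by rw [map_mul, map_inv, h4, mul_inv_cancel]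
    obtain ⟨z, hz⟩ := e.ker _ h5
    refine ⟨z, ?_⟩
    rw [hz, map_mul, map_inv]
    have h6 : F m = 1 := (QuotientGroup.eq_one_iff m).2 hm
    rw [h6, inv_one, mul_one]
  have hinj : Function.Injective (F.comp e.ι) := by
    rw [injective_iff_map_eq_one]
    intro z hz
    have h1 : e.ι z ∈ M := (QuotientGroup.eq_one_iff _).1 hz
    have h2 := hMk _ h1 (e.one z)
    exact e.inj (by rw [h2, map_one])
  have hcen : ∀ z γ, (F.comp e.ι) z * γ = γ * (F.comp e.ι) z := by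
    intro z q
    obtain ⟨γ, rfl⟩ := hFs q
    show F (e.ι z) * F γ = F γ * F (e.ι z)
    rw [← map_mul, e.cen, map_mul]
  -- the marks
  let Mg' : e.Γ ⧸ M → Fin r → C → C → Prop := fun q j c c' => w.δ j = 1 ∧
    ∃ (a b : e.Γ) (u : e.Γ ⧸ M), Gd e.s.H (e.φ a) (e.φ b) (e.φ (X1 w.M1 w.m2 a b)) ∧
      q = u * F (vv w j a b) * u⁻¹ ∧ c = s'.col (f (e.φ a)) ∧ c' = s'.col (f (e.φ b))
  have hvv : ∀ (a b : e.Γ) (j : Fin r), φ' (F (vv w j a b)) =
      f (Wj w j (e.φ a) (e.φ b) (e.φ (X1 w.M1 w.m2 a b))) := by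
    intro a b j
    show f (e.φ (vv w j a b)) = _
    rw [vv, map_Wj]
  let e' : SE (r := r) K B T N C Z :=
    { s := s'
      Γ := e.Γ ⧸ M
      gr := inferInstance
      φ := φ'
      ι := F.comp e.ι
      sur := hφs
      inj := hinj
      ker := hker
      one := fun z => by
        show f (e.φ (e.ι z)) = 1
        rw [e.one, map_one]
      cen := hcen
      Mg := Mg'
      mgk := by
        rintro q j c c' ⟨-, a, b, u, h1, h2, h3, h4⟩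
        rw [h2, map_mul, map_mul, map_inv, h3, h4]
        apply s'.mkc
        rw [hvv]
        exact hR.mka _ _ _ j h1
      mgs := by
        rintro q j c c' ⟨-, a, b, u, h1, h2, h3, h4⟩
        obtain ⟨w1, w2, w3, -, -⟩ := hR.st.wr _ _ _ h1 j
        have e1 : φ' q = φ' u * f (Wj w j (e.φ a) (e.φ b) (e.φ (X1 w.M1 w.m2 a b))) *
            (φ' u)⁻¹ := by rw [h2, map_mul, map_mul, map_inv, hvv]
        rw [e1]
        refine ⟨?_, ⟨(φ' u)⁻¹, ?_⟩, ?_⟩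
        · intro h
          apply w1
          have := cf (φ' u)⁻¹ _ h
          rwa [show (φ' u)⁻¹ * (φ' u * f (Wj w j (e.φ a) (e.φ b) (e.φ (X1 w.M1 w.m2 a b))) *
            (φ' u)⁻¹) * (φ' u)⁻¹⁻¹ = f (Wj w j (e.φ a) (e.φ b) (e.φ (X1 w.M1 w.m2 a b))) by
            group] at this
        · rwa [show (φ' u)⁻¹ * (φ' u * f (Wj w j (e.φ a) (e.φ b) (e.φ (X1 w.M1 w.m2 a b))) *
            (φ' u)⁻¹) * (φ' u)⁻¹⁻¹ = f (Wj w j (e.φ a) (e.φ b) (e.φ (X1 w.M1 w.m2 a b))) by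
            group]
        · intro p hp
          generalize f (Wj w j (e.φ a) (e.φ b) (e.φ (X1 w.M1 w.m2 a b))) = V at *
          obtain ⟨t, ht⟩ := w3 ((φ' u)⁻¹ * p * φ' u) (by
            calc (φ' u)⁻¹ * p * φ' u * V = (φ' u)⁻¹ * (p * (φ' u * V * (φ' u)⁻¹)) * φ' u := by
                  group
              _ = (φ' u)⁻¹ * ((φ' u * V * (φ' u)⁻¹) * p) * φ' u := by rw [hp]
              _ = V * ((φ' u)⁻¹ * p * φ' u) := by group)
          refine ⟨t, ?_⟩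
          rw [conj_zpow, ← ht]
          group
      mgc := by
        rintro v q j c c' ⟨h0, a, b, u, h1, h2, h3, h4⟩
        refine ⟨h0, a, b, v * u, h1, ?_, h3, h4⟩
        rw [h2]
        group
      mgu := by
        rintro q q' j j' c c' d d' ⟨h0, a, b, u, h1, h2, h3, h4⟩ ⟨h0', a', b', u', h1', h2', h3',
          h4'⟩ hqq
        rw [h2, h2', map_mul, map_mul, map_mul, map_mul, map_inv, map_inv, hvv, hvv] at hqq
        obtain ⟨w1, w2, w3, -, w5⟩ := hR.st.wr _ _ _ h1 j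
        obtain ⟨w6, -⟩ := w5 _ _ _ h1' j' ((φ' u')⁻¹ * φ' u)
        set V := f (Wj w j (e.φ a) (e.φ b) (e.φ (X1 w.M1 w.m2 a b))) with hV
        obtain ⟨hj, g, hg1, hg2⟩ := w6 (by
          have : (φ' u')⁻¹ * φ' u * V * ((φ' u')⁻¹ * φ' u)⁻¹ =
            (φ' u')⁻¹ * (φ' u * V * (φ' u)⁻¹) * φ' u' := by group
          rw [this, hqq]
          group)
        subst hj
        obtain ⟨y, hy⟩ := e.sur g
        -- the lifts of `a'` and `b'`
        have lift : ∀ p p' : e.Γ, e.φ p' = g * e.φ p * g⁻¹ → ∃ z : Z,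
            p' = y * p * y⁻¹ * e.ι z := by
          intro p p' hp
          have h5 : e.φ ((y * p * y⁻¹)⁻¹ * p') = 1 := by
            simp only [map_mul, map_inv, hy, hp]
            group
          obtain ⟨z, hz⟩ := e.ker _ h5
          exact ⟨z, by rw [hz]; group⟩
        obtain ⟨z, hz⟩ := lift a a' hg1
        obtain ⟨z', hz'⟩ := lift b b' hg2
        have h5 : vv w j a' b' = y * vv w j a b * y⁻¹ := by
          rw [hz, hz', vv_cen w j h0 _ _ _ _ (e.cen z) (e.cen z'), conj_vv]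
        -- the two conjugators
        have h6 : φ' (F (vv w j a b)) = V := hvv a b j
        have h7 : φ' (F (vv w j a' b')) = φ' (F y) * V * (φ' (F y))⁻¹ := by
          rw [h5, map_mul, map_mul, map_inv, map_mul, map_mul, map_inv, h6]
        rw [← hvv, h7] at hqq
        obtain ⟨t, ht⟩ := w3 ((φ' u)⁻¹ * (φ' u' * φ' (F y))) (by
          calc (φ' u)⁻¹ * (φ' u' * φ' (F y)) * V
              = (φ' u)⁻¹ * (φ' u' * (φ' (F y) * V * (φ' (F y))⁻¹) * (φ' u')⁻¹) *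
                φ' u' * φ' (F y) := by group
            _ = (φ' u)⁻¹ * (φ' u * V * (φ' u)⁻¹) * φ' u' * φ' (F y) := by rw [hqq]
            _ = V * ((φ' u)⁻¹ * (φ' u' * φ' (F y))) := by group)
        have h8 : φ' ((u⁻¹ * (u' * F y)) * (F (vv w j a b) ^ t)⁻¹) = 1 := by
          rw [map_mul, map_inv, map_zpow, h6, ← ht, map_mul, map_mul, map_inv, mul_inv_cancel]
        obtain ⟨z1, hz1⟩ := hker _ h8
        have h9 : u⁻¹ * (u' * F y) = F (e.ι z1) * F (vv w j a b) ^ t := by rw [hz1]; group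
        have h10 : Commute (u⁻¹ * (u' * F y)) (F (vv w j a b)) := by
          rw [h9]
          exact Commute.mul_left (hcen z1 _) (Commute.zpow_self _ t)
        rw [h2, h2', h5, map_mul, map_mul, map_inv]
        have h11 := h10.eq
        generalize F (vv w j a b) = W at *
        calc u * W * u⁻¹ = u * (W * (u⁻¹ * (u' * F y))) * (u' * F y)⁻¹ := by group
          _ = u * ((u⁻¹ * (u' * F y)) * W) * (u' * F y)⁻¹ := by rw [h11]
          _ = u' * (F y * W * (F y)⁻¹) * u'⁻¹ := by group }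
  refine ⟨e', f, F, Xs, hR, fun _ => rfl, fun _ => rfl, hFs, ?_, ?_⟩
  · -- the powers
    intro γ j c c' hγ
    obtain ⟨g1, ⟨v0, g2⟩, g3⟩ := e.mgs γ j c c' hγ
    have g1' : ¬ IsOfFinOrder (v0 * e.φ γ * v0⁻¹) := by
      intro h
      apply g1
      have := cf v0⁻¹ _ h
      rwa [show v0⁻¹ * (v0 * e.φ γ * v0⁻¹) * v0⁻¹⁻¹ = e.φ γ by group] at this
    obtain ⟨x, hx, u0, k, hk⟩ := hR.st.short _ g1' g2
    obtain ⟨p1, p2⟩ := hR.st.prim x hx
    obtain ⟨u, hu⟩ : ∃ u, u = v0⁻¹ * u0 := ⟨_, rfl⟩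
    have hV : e.φ γ = u * x ^ k * u⁻¹ := by
      rw [hu]
      calc e.φ γ = v0⁻¹ * (v0 * e.φ γ * v0⁻¹) * v0 := by group
        _ = v0⁻¹ * (u0 * x ^ k * u0⁻¹) * v0 := by rw [hk]
        _ = _ := by group
    have hk1 : k = 1 ∨ k = -1 := by
      obtain ⟨t, ht⟩ := g3 (u * x * u⁻¹) (by rw [hV]; group)
      rw [hV] at ht
      have e1 : (u * x ^ k * u⁻¹) ^ t = u * x ^ (k * t) * u⁻¹ := by
        rw [zpow_mul, conj_zpow]
      rw [e1] at ht
      have e2 : x = x ^ (k * t) := mul_left_cancel (mul_right_cancel ht)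
      have e3 : x ^ (k * t - 1) = 1 := by
        rw [zpow_sub, ← e2, zpow_one, mul_inv_cancel]
      have e4 : k * t - 1 = 0 := by
        by_contra h
        exact p1 (isOfFinOrder_iff_zpow_eq_one.2 ⟨_, h, e3⟩)
      exact Int.eq_one_or_neg_one_of_mul_eq_one (show k * t = 1 by omega)
    obtain ⟨v, hv⟩ := e.sur u
    obtain ⟨γ0, hγ0⟩ : ∃ γ0, γ0 = v⁻¹ * γ * v := ⟨_, rfl⟩
    have hm0 : e.Mg γ0 j c c' := by
      have := e.mgc v⁻¹ γ j c c' hγ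
      rw [inv_inv] at this
      rwa [hγ0]
    have hφ0 : e.φ γ0 = x ^ k := by
      rw [hγ0, map_mul, map_mul, map_inv, hv, hV]
      group
    have hrr : F (e.rr ε χ x) = 1 :=
      (QuotientGroup.eq_one_iff _).2 (Subgroup.subset_normalClosure ⟨x, hx, rfl⟩)
    have hp : F γ0 ^ ε j c c' = F (e.ι (χ j c c')) := by
      rcases hk1 with rfl | rfl
      · rw [zpow_one] at hφ0
        rw [e.rr_pos ε χ x γ0 j c c' hm0 hφ0, map_mul, map_inv, map_pow] at hrr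
        exact mul_inv_eq_one.1 hrr
      · rw [zpow_neg, zpow_one] at hφ0
        rw [e.rr_neg ε χ x γ0 j c c' hm0 hφ0, map_inv, inv_eq_one, map_mul, map_inv,
          map_pow] at hrr
        exact mul_inv_eq_one.1 hrr
    have hγ1 : γ = v * γ0 * v⁻¹ := by rw [hγ0]; group
    have h12 : F γ ^ ε j c c' = F v * F γ0 ^ ε j c c' * (F v)⁻¹ := by
      rw [hγ1, map_mul, map_mul, map_inv, conj_pow]
    rw [h12, hp]
    have h13 : F v * F (e.ι (χ j c c')) = F (e.ι (χ j c c')) * F v := (hcen _ _).symm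
    rw [h13]
    show F (e.ι (χ j c c')) * F v * (F v)⁻¹ = F (e.ι (χ j c c'))
    group
  · intro a b j hδ hG
    exact ⟨hδ, a, b, 1, hG, by group, rfl, rfl⟩

end Pool.Agent.H319.RAD
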