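import Pool.Agent.H319.RAD.Seq

/-!
# The central extension of the limit group
-/

set_option autoImplicit false

namespace Pool.Agent.H319.RAD

open Pool.Agent.TH54.BU Pool.Agent.Y45.MON Pool.Agent.Y864.MON Pool.Agent.Y872.MON

/-- a group `L` of the library with a central extension `Γ` of `L` by `Z`, in which the values of
the words `vv w j` with `δ = 1` at noncommuting pairs have powers in `Z` with prescribed values -/
structure MonC {r : ℕ} (w : WP r) (N : ℕ) {C : Type} (Φ : Fin r → C → C → C)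
    (ε : Fin r → C → C → ℕ) {Z : Type} [CommGroup Z] (χ : Fin r → C → C → Z) (Γ L : Type)
    [Group Γ] [Group L] (φ : Γ →* L) (ι : Z →* Γ) (col : L → C) (rk : L → ℕ) : Prop where
  mon : MonP w N Φ ε L col rk
  sur : Function.Surjective φ
  inj : Function.Injective ι
  ker : ∀ γ, φ γ = 1 → ∃ z, ι z = γ
  one : ∀ z, φ (ι z) = 1
  cen : ∀ z γ, ι z * γ = γ * ι z
  cyc : ∀ a b : L, a * b = b * a → ∃ c : L, (∃ k : ℤ, a = c ^ k) ∧ ∃ k : ℤ, b = c ^ k
  com : ∀ a b : Γ, φ a * φ b = φ b * φ a → a * b = b * a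
  pw : ∀ (a b : Γ) (j : Fin r), w.δ j = 1 → a * b ≠ b * a →
    vv w j a b ^ ε j (col (φ a)) (col (φ b)) = ι (χ j (col (φ a)) (col (φ b)))

section

variable {r : ℕ} {w : WP r} {R0 N : ℕ} {C : Type} {Φ : Fin r → C → C → C}
  {ε : Fin r → C → C → ℕ} {G : ℕ → Type} [∀ n, Group (G n)] {H : ∀ n, GH (G n)}
  {f : ∀ n, G n →* G (n + 1)} {col : ∀ n, G n → C} {Mk : ∀ n, G n → Fin r → C → C → Prop}
  {Xs : ∀ n, Set (G n)} {L : Type} [Group L] {π : ∀ n, G n →* L}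

/-- commuting elements are powers of one element -/
theorem cyc (D : LD w R0 N Φ ε G H f col Mk Xs L π) (a b : L) (h : a * b = b * a) :
    ∃ c : L, (∃ k : ℤ, a = c ^ k) ∧ ∃ k : ℤ, b = c ^ k := by
  by_cases ha : a = 1
  · exact ⟨b, ⟨0, by rw [ha, zpow_zero]⟩, ⟨1, by rw [zpow_one]⟩⟩
  obtain ⟨g, hg, hga⟩ := D.rk_mem a
  have hmin : ∀ (m : ℕ) (g : G m), IsOfFinOrder g → π m g = a → rk π a ≤ m :=
    fun m g h1 h2 => h2 ▸ rk_le h1
  generalize rk π a = m at *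
  cases m with
  | zero => exact absurd (by rw [← hga, D.sq.free g hg, map_one]) ha
  | succ n =>
    rcases (D.sq.st n).tor g hg with ⟨g0, h1, h2⟩ | ⟨x, hx, u, k, h1⟩
    · have := hmin n g0 h2 (by rw [← hga, ← h1, D.cmp])
      omega
    · have h3 : f n (x ^ k) ≠ 1 := by
        intro h3
        apply ha
        rw [← hga, ← h1, (LD.oneX n x u k).2 h3, map_one]
      have h4 : π n (u * x ^ k * u⁻¹) = a := by rw [← D.cmp, h1, hga]
      obtain ⟨s, hs⟩ := D.centr n x hx u k h3 b (by rw [h4]; exact h.symm)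
      refine ⟨π n (u * x * u⁻¹), ⟨k, ?_⟩, ⟨s, ?_⟩⟩
      · rw [← map_zpow, conj_zpow, h4]
      · rw [← map_zpow, conj_zpow, hs]

/-- the pull back of a noncommuting pair; `Pool.Agent.Y872.MON.LD.main` with the word `X1` kept -/
theorem main' (D : LD w R0 N Φ ε G H f col Mk Xs L π) (A B : L) (hAB : A * B ≠ B * A) :
    ∃ (n : ℕ) (h0 : L) (a b : G (n + 1)), Gd (H (n + 1)) a b (X1 w.M1 w.m2 a b) ∧
      IsOfFinOrder a ∧ π (n + 1) a = h0 * A * h0⁻¹ ∧ π (n + 1) b = h0 * B * h0⁻¹ ∧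
      IsOfFinOrder (f (n + 1) b) := by
  let S : ℕ → Prop := fun m => ∃ (a b : G m) (h : L), π m a = h * A * h⁻¹ ∧
    π m b = h * B * h⁻¹ ∧ IsOfFinOrder a ∧ IsOfFinOrder (P0 w.M1 a b)
  have hS : ∃ m, S m := by
    obtain ⟨a, ha⟩ := D.sur 0 A
    obtain ⟨b, hb⟩ := D.sur 0 B
    obtain ⟨m, a', b', h1, h2, h3, h4⟩ := D.ev (max ((H 0).len a) ((H 0).len (P0 w.M1 a b))) 0
      a b (le_max_left _ _) (le_max_right _ _)
    exact ⟨m, a', b', 1, by simp [h1, ha], by simp [h2, hb], h3, h4⟩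
  classical
  obtain ⟨m, hm, hmin⟩ : ∃ m, S m ∧ ∀ k < m, ¬ S k :=
    ⟨Nat.find hS, Nat.find_spec hS, fun k hk => Nat.find_min hS hk⟩
  obtain ⟨a', b', h, h1, h2, h3, h4⟩ := hm
  have hA : A ≠ 1 := by rintro rfl; simp at hAB
  have hB : B ≠ 1 := by rintro rfl; simp at hAB
  cases m with
  | zero =>
    exfalso
    have h5 : a' = 1 := D.sq.free a' h3
    rw [h5, map_one] at h1
    exact hA (conj_eq_one_iff.1 h1.symm)
  | succ n =>
    have hab : a' * b' ≠ b' * a' := by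
      intro e
      apply hAB
      have e1 := congrArg (π (n + 1)) e
      rw [map_mul, map_mul, h1, h2] at e1
      have e2 : h * (A * B) * h⁻¹ = h * (B * A) * h⁻¹ := by
        rw [show h * (A * B) * h⁻¹ = h * A * h⁻¹ * (h * B * h⁻¹) by group, e1]
        group
      exact mul_left_cancel (mul_right_cancel e2)
    obtain ⟨a1, b1, k, h5, h6, h7, h8, h9⟩ := (D.sq.st n).pb a' b' h3 hab h4
    have e1 : π (n + 1) (f n a1) = (π (n + 1) k * h) * A * (π (n + 1) k * h)⁻¹ := by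
      rw [h8, map_mul, map_mul, map_inv, h1]
      group
    have e2 : π (n + 1) (f n b1) = (π (n + 1) k * h) * B * (π (n + 1) k * h)⁻¹ := by
      rw [h9, map_mul, map_mul, map_inv, h2]
      group
    have ha1 : a1 ≠ 1 := by
      rintro rfl
      rw [map_one, map_one] at e1
      exact hA (conj_eq_one_iff.1 e1.symm)
    have hb1 : b1 ≠ 1 := by
      rintro rfl
      rw [map_one, map_one] at e2
      exact hB (conj_eq_one_iff.1 e2.symm)
    have h10 : ¬ IsOfFinOrder (P0 w.M1 a1 b1) := fun h10 => hmin n (by omega)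
      ⟨a1, b1, π (n + 1) k * h, (D.cmp n a1).symm.trans e1, (D.cmp n b1).symm.trans e2, h5, h10⟩
    have h11 : IsOfFinOrder (f n (P0 w.M1 a1 b1)) := by
      rw [map_P0, h8, h9, conj_P0]
      exact cf _ _ h4
    have l1 : (H n).len a1 ≤ 1 := by simpa using h6 1
    have l2 : (H n).len (a1 ^ 2) ≤ 1 := by
      have := h6 2
      rwa [zpow_ofNat] at this
    obtain ⟨x1, x2, x3⟩ := (D.sq.st n).xa a1 b1 h5 h6 h7 h10 h11
    have l3 : (H (n + 1)).len (f n b1) ≤ 1 := (D.sq.st n).len0 _ h7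
    refine ⟨n, π (n + 1) k * h, f n a1, f n b1, ?_, MonoidHom.isOfFinOrder _ h5, e1, e2,
      (D.sq.st (n + 1)).kill _ l3⟩
    rw [← map_X1]
    refine ⟨?_, l3, x2, x1, ?_, ?_, ?_⟩
    · exact (D.sq.st n).len0 _ (l1.trans D.R1)
    · exact x3 a1 (l1.trans D.R1) ha1
    · have := x3 (a1 ^ 2) (l2.trans D.R1) (LD.sq_ne D.N3 (D.sq.tor n a1 h5) ha1)
      rwa [map_pow] at this
    · exact x3 b1 h7 hb1

/-- the central extension of the limit -/
theorem limE (D : LD w R0 N Φ ε G H f col Mk Xs L π) {Z : Type} [CommGroup Z]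
    {χ : Fin r → C → C → Z} {Γ : ℕ → Type} [∀ n, Group (Γ n)] {φ : ∀ n, Γ n →* G n}
    {ι : ∀ n, Z →* Γ n} {F : ∀ n, Γ n →* Γ (n + 1)} (E : CE w ε G H f col Z χ Γ φ ι F) :
    ∃ (ΓL : Type) (_ : Group ΓL) (φL : ΓL →* L) (ιL : Z →* ΓL),
      MonC w N Φ ε χ ΓL L φL ιL D.colL (rk π) := by
  obtain ⟨P, iP, p, p1, p2, p3⟩ := exists_lim F E.Fs
  -- dying elements
  have d1 : ∀ (n : ℕ) (γ : Γ n), Dies F n γ → π n (φ n γ) = 1 := by
    intro n γ h
    induction h with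
    | one n => rw [map_one, map_one]
    | step n γ h ih => rwa [E.cm, D.cmp] at ih
  have d2 : ∀ (n : ℕ) (γ : Γ n), Dies F n γ → ∀ z, ι n z = γ → z = 1 := by
    intro n γ h
    induction h with
    | one n => exact fun z hz => E.inj n (by rw [hz, map_one])
    | step n γ h ih => exact fun z hz => ih z (by rw [← E.io, hz])
  have hcz : ∀ n z, p n (ι n z) = p 0 (ι 0 z) := by
    intro n z
    induction n with
    | zero => rfl
    | succ n ih => rw [← E.io, p2, ih]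
  have d3 : ∀ (n : ℕ) (g : G n), Dies f n g → ∀ γ, φ n γ = g → ∃ z, p 0 (ι 0 z) = p n γ := by
    intro n g h
    induction h with
    | one n =>
      intro γ hγ
      obtain ⟨z, hz⟩ := E.ker n γ hγ
      exact ⟨z, by rw [← hcz n, hz]⟩
    | step n g h ih =>
      intro γ hγ
      obtain ⟨z, hz⟩ := ih (F n γ) (by rw [E.cm, hγ])
      exact ⟨z, by rw [hz, p2]⟩
  -- the map to the limit
  have hker : (p 0).ker ≤ ((π 0).comp (φ 0)).ker := fun γ hγ => d1 0 γ (p3 0 γ hγ)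
  obtain ⟨φL, hφ0⟩ : ∃ q : P →* L, ∀ γ, q (p 0 γ) = π 0 (φ 0 γ) :=
    ⟨(p 0).liftOfSurjective (p1 0) ⟨(π 0).comp (φ 0), hker⟩, fun g =>
      MonoidHom.liftOfRightInverse_comp_apply _ _ (Function.rightInverse_surjInv (p1 0))
        ⟨(π 0).comp (φ 0), hker⟩ g⟩
  have hφ : ∀ n γ, φL (p n γ) = π n (φ n γ) := by
    intro n
    induction n with
    | zero => exact hφ0
    | succ n ih =>
      intro γ
      obtain ⟨γ0, rfl⟩ := E.Fs n γ
      rw [p2, ih, E.cm, D.cmp]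
  refine ⟨P, iP, φL, (p 0).comp (ι 0), ?_⟩
  have hone : ∀ z, φL (p 0 (ι 0 z)) = 1 := fun z => by rw [hφ, E.one, map_one]
  have hkr : ∀ γ, φL γ = 1 → ∃ z, p 0 (ι 0 z) = γ := by
    intro γ hγ
    obtain ⟨γ0, rfl⟩ := p1 0 γ
    rw [hφ] at hγ
    exact d3 0 _ (D.ker _ _ hγ) γ0 rfl
  have hcen : ∀ z γ, p 0 (ι 0 z) * γ = γ * p 0 (ι 0 z) := by
    intro z γ
    obtain ⟨γ0, rfl⟩ := p1 0 γ
    rw [← map_mul, E.cen, map_mul]
  have hsur : Function.Surjective φL := by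
    intro g
    obtain ⟨g0, rfl⟩ := D.sur 0 g
    obtain ⟨γ, rfl⟩ := E.sur 0 g0
    exact ⟨p 0 γ, hφ 0 γ⟩
  have hcom : ∀ a b : P, φL a * φL b = φL b * φL a → a * b = b * a := by
    intro a b hab
    obtain ⟨c, ⟨k, hk⟩, ⟨l, hl⟩⟩ := cyc D _ _ hab
    obtain ⟨c0, rfl⟩ := hsur c
    obtain ⟨z, hz⟩ := hkr (a * (c0 ^ k)⁻¹) (by rw [map_mul, map_inv, map_zpow, hk, mul_inv_cancel])
    obtain ⟨z', hz'⟩ := hkr (b * (c0 ^ l)⁻¹)
      (by rw [map_mul, map_inv, map_zpow, hl, mul_inv_cancel])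
    have h1 : a = p 0 (ι 0 z) * c0 ^ k := by rw [hz]; group
    have h2 : b = p 0 (ι 0 z') * c0 ^ l := by rw [hz']; group
    have h3 : Commute (p 0 (ι 0 z)) b := hcen z b
    have h4 : Commute (c0 ^ k) b := by
      rw [h2]
      exact Commute.mul_right (hcen z' _).symm (Commute.zpow_zpow_self c0 k l)
    rw [h1]
    exact (Commute.mul_left h3 h4).eq
  refine
    { mon := D.monP
      sur := hsur
      inj := ?_
      ker := hkr
      one := hone
      cen := hcen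
      cyc := cyc D
      com := hcom
      pw := ?_ }
  · rw [injective_iff_map_eq_one]
    intro z hz
    exact d2 0 _ (p3 0 _ hz) z rfl
  · intro A B j hδ hAB
    have hAB' : φL A * φL B ≠ φL B * φL A := fun h => hAB (hcom A B h)
    obtain ⟨n, h0, a, b, hG, ha, h1, h2, hb⟩ := main' D (φL A) (φL B) hAB'
    obtain ⟨h, rfl⟩ := hsur h0
    -- lifts of `a` and `b`
    have lift : ∀ (q : P) (g : G (n + 1)), π (n + 1) g = φL h * φL q * (φL h)⁻¹ →
        ∃ γ : Γ (n + 1), φ (n + 1) γ = g ∧ p (n + 1) γ = h * q * h⁻¹ := by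
      intro q g hg
      obtain ⟨γ, rfl⟩ := E.sur (n + 1) g
      rw [← hφ] at hg
      have h3 : φL (h * q * h⁻¹ * (p (n + 1) γ)⁻¹) = 1 := by
        rw [map_mul, map_mul, map_mul, map_inv, map_inv, hg, mul_inv_cancel]
      obtain ⟨z, hz⟩ := hkr _ h3
      refine ⟨ι (n + 1) z * γ, ?_, ?_⟩
      · rw [map_mul, E.one, one_mul]
      · rw [map_mul, hcz, hz]
        group
    obtain ⟨a0, rfl, h3⟩ := lift A a h1
    obtain ⟨b0, rfl, h4⟩ := lift B b h2
    rw [← map_X1] at hG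
    have h5 := E.pw (n + 1) a0 b0 j hδ hG
    have hcA : col (n + 1 + 1) (f (n + 1) (φ (n + 1) a0)) = D.colL (φL A) := by
      rw [← D.colL_eq (MonoidHom.isOfFinOrder _ ha), D.cmp, h1, D.colL_conj]
    have hcB : col (n + 1 + 1) (f (n + 1) (φ (n + 1) b0)) = D.colL (φL B) := by
      rw [← D.colL_eq hb, D.cmp, h2, D.colL_conj]
    rw [hcA, hcB] at h5
    have h6 := congrArg (p (n + 1 + 2)) h5
    rw [map_pow, hcz, p2, p2, map_vv, h3, h4, conj_vv, conj_pow] at h6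
    have h7 := hcen (χ j (D.colL (φL A)) (D.colL (φL B))) h
    show vv w j A B ^ ε j (D.colL (φL A)) (D.colL (φL B)) =
      p 0 (ι 0 (χ j (D.colL (φL A)) (D.colL (φL B))))
    have h8 : vv w j A B ^ ε j (D.colL (φL A)) (D.colL (φL B)) =
        h⁻¹ * (h * vv w j A B ^ ε j (D.colL (φL A)) (D.colL (φL B)) * h⁻¹) * h := by group
    rw [h8, h6, mul_assoc, h7]
    group

end

/-- the limit theorem with central extensions -/
theorem monC (r : ℕ) (δ : Fin r → ℕ) (hδ : ∀ j, δ j = 1 ∨ δ j = 2) :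
  ∃ (w : WP r) (n0 : ℕ), w.δ = δ ∧ 3 ≤ n0 ∧
    ∀ N : ℕ, N ≠ 1 → (∀ q : ℕ, q.Prime → q ∣ N → n0 ≤ q) →
      ∀ (C : Type) (_ : Inhabited C) (Φ : Fin r → C → C → C) (ε : Fin r → C → C → ℕ),
      (∀ j c c', ε j c c' ∣ N ∧ ε j c c' ≠ 1) →
      ∀ (Z : Type) (_ : CommGroup Z) (χ : Fin r → C → C → Z),
      ∃ (Γ L : Type) (_ : Group Γ) (_ : Group L) (φ : Γ →* L) (ι : Z →* Γ) (col : L → C)
        (rk : L → ℕ), MonC w N Φ ε χ Γ L φ ι col rk := by
  obtain ⟨w, R0, n0, h1, h2, h3, h4⟩ := seqE r δ hδ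
  refine ⟨w, n0, h1, h3, ?_⟩
  intro N hN hq C iC Φ ε hε Z iZ χ
  obtain ⟨G, iG, H, f, col, Mk, Xs, Γ, iΓ, φ, ι, F, hS, hE⟩ := h4 N hN hq C iC Φ ε hε Z iZ χ
  obtain ⟨L, iL, π, p1, p2, p3⟩ := exists_lim f (fun n => (hS.st n).surj)
  let D : LD w R0 N Φ ε G H f col Mk Xs L π :=
    ⟨hS, h2, fun q hq1 hq2 => h3.trans (hq q hq1 hq2), hε, p1, p2, p3⟩
  obtain ⟨Γ', iΓ', φ', ι', hM⟩ := limE D hE
  exact ⟨Γ', L, iΓ', iL, φ', ι', D.colL, rk π, hM⟩

end Pool.Agent.H319.RAD
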