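import Pool.Agent.H319.RAD.Ext
import Pool.Graph.R_seed8.TH54.BU.Base

/-!
# The sequence of central extensions
-/

set_option autoImplicit false

namespace Pool.Agent.H319.RAD

open Pool.Agent.TH54.BU Pool.Agent.Y45.MON Pool.Agent.Y864.MON Pool.Agent.Y872.MON

/-- central extensions `Γ n` of the groups `G n` by `Z`; in the group `Γ (n + 2)` the value of the
word `vv w j` at a good pair has its `ε`-th power in `Z`, with the prescribed value `χ` -/
structure CE {r : ℕ} (w : WP r) {C : Type} (ε : Fin r → C → C → ℕ) (G : ℕ → Type)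
    [∀ n, Group (G n)] (H : ∀ n, GH (G n)) (f : ∀ n, G n →* G (n + 1)) (col : ∀ n, G n → C)
    (Z : Type) [CommGroup Z] (χ : Fin r → C → C → Z) (Γ : ℕ → Type) [∀ n, Group (Γ n)]
    (φ : ∀ n, Γ n →* G n) (ι : ∀ n, Z →* Γ n) (F : ∀ n, Γ n →* Γ (n + 1)) : Prop where
  sur : ∀ n, Function.Surjective (φ n)
  inj : ∀ n, Function.Injective (ι n)
  ker : ∀ n γ, φ n γ = 1 → ∃ z, ι n z = γ
  one : ∀ n z, φ n (ι n z) = 1
  cen : ∀ n z γ, ι n z * γ = γ * ι n z
  cm : ∀ n γ, φ (n + 1) (F n γ) = f n (φ n γ)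
  io : ∀ n z, F n (ι n z) = ι (n + 1) z
  Fs : ∀ n, Function.Surjective (F n)
  pw : ∀ (n : ℕ) (a b : Γ n) (j : Fin r), w.δ j = 1 →
    Gd (H n) (φ n a) (φ n b) (φ n (X1 w.M1 w.m2 a b)) →
    F (n + 1) (F n (vv w j a b)) ^
      ε j (col (n + 1) (f n (φ n a))) (col (n + 1) (f n (φ n b))) =
      ι (n + 2) (χ j (col (n + 1) (f n (φ n a))) (col (n + 1) (f n (φ n b))))

/-- the free group of rank two is not abelian -/
theorem of_not_commute {I : Type} {i j : I} (hij : i ≠ j) :
    FreeGroup.of i * FreeGroup.of j ≠ FreeGroup.of j * FreeGroup.of i := by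
  classical
  intro h
  let f : FreeGroup I →* Equiv.Perm (Fin 3) :=
    FreeGroup.lift (fun k => if k = i then Equiv.swap 0 1 else Equiv.swap 1 2)
  have h1 := congrArg f h
  simp only [map_mul, f, FreeGroup.lift_apply_of, if_true, if_neg hij.symm] at h1
  exact absurd h1 (by decide)

/-- existence of the sequence, with the central extensions -/
theorem seqE : ∀ (r : ℕ) (δ : Fin r → ℕ), (∀ j, δ j = 1 ∨ δ j = 2) →
  ∃ (w : WP r) (R0 n0 : ℕ), w.δ = δ ∧ 1 ≤ R0 ∧ 3 ≤ n0 ∧
    ∀ N : ℕ, N ≠ 1 → (∀ q : ℕ, q.Prime → q ∣ N → n0 ≤ q) →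
      ∀ (C : Type) (_ : Inhabited C) (Φ : Fin r → C → C → C) (ε : Fin r → C → C → ℕ),
      (∀ j c c', ε j c c' ∣ N ∧ ε j c c' ≠ 1) →
      ∀ (Z : Type) (_ : CommGroup Z) (χ : Fin r → C → C → Z),
      ∃ (G : ℕ → Type) (_ : ∀ n, Group (G n)) (H : ∀ n, GH (G n)) (f : ∀ n, G n →* G (n + 1))
        (col : ∀ n, G n → C) (Mk : ∀ n, G n → Fin r → C → C → Prop) (Xs : ∀ n, Set (G n))
        (Γ : ℕ → Type) (_ : ∀ n, Group (Γ n)) (φ : ∀ n, Γ n →* G n) (ι : ∀ n, Z →* Γ n)
        (F : ∀ n, Γ n →* Γ (n + 1)),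
        Sq w R0 N Φ ε G H f col Mk Xs ∧ CE w ε G H f col Z χ Γ φ ι F := by
  classical
  have h := aStep'
  intro r δ hδ
  obtain ⟨w, R0, K, B, T, n0, hw, hR0, hK, hB, hT, -, hn0, hstep⟩ := h r δ hδ
  refine ⟨w, R0, n0, hw, hR0, hn0, ?_⟩
  intro N hN hq C iC Φ ε hε Z iZ χ
  -- base
  obtain ⟨H0, hD0, hS0, hA0, hlen0⟩ := base (Fin 2)
  have htf : ∀ g : FreeGroup (Fin 2), IsOfFinOrder g → g = 1 := by
    intro g hg
    obtain ⟨m, hm, h⟩ := isOfFinOrder_iff_pow_eq_one.1 hg
    have h1 : g ^ m = 1 ^ m := by rw [h, one_pow]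
    exact pow_left_injective hm.ne' h1
  let s0 : Stage (r := r) K B T N C :=
    { G := FreeGroup (Fin 2)
      grp := inferInstance
      H := H0
      col := fun _ => default
      Mk := fun _ _ _ _ => False
      hD := hD0
      stab := by
        intro g hg m
        calc m ≤ 1 * H0.len (g ^ m) := hS0 g hg m
          _ ≤ T * H0.len (g ^ m) := Nat.mul_le_mul_right _ hT
      acy := hA0 K B hB
      tor := fun g hg => by rw [htf g hg, one_pow]
      ts := fun g hg => ⟨1, fun k => by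
        rw [htf g hg]
        simp [H0.len_one]⟩
      colc := fun _ _ => rfl
      mkc := fun _ _ _ _ _ h => h
      mku := fun _ _ _ _ _ _ _ h => h.elim
      mki := fun _ _ _ _ _ _ _ h => h.elim }
  let e0 : SE (r := r) K B T N C Z :=
    { s := s0
      Γ := FreeGroup (Fin 2) × Z
      gr := inferInstance
      φ := MonoidHom.fst _ _
      ι := MonoidHom.inr _ _
      sur := Prod.fst_surjective
      inj := by
        intro a b hab
        exact (Prod.ext_iff.1 hab).2
      ker := by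
        rintro ⟨g, z⟩ hg
        exact ⟨z, Prod.ext (show (1 : FreeGroup (Fin 2)) = g from
          (show g = (1 : FreeGroup (Fin 2)) from hg).symm) rfl⟩
      one := fun z => rfl
      cen := by
        rintro z ⟨g, z'⟩
        apply Prod.ext
        · show 1 * g = g * 1
          rw [one_mul, mul_one]
        · show z * z' = z' * z
          exact mul_comm z z'
      Mg := fun _ _ _ _ => False
      mgk := fun _ _ _ _ h => h
      mgs := fun _ _ _ _ h => h.elim
      mgc := fun _ _ _ _ _ h => h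
      mgu := fun _ _ _ _ _ _ _ _ h => h.elim }
  have hnext : ∀ e : SE (r := r) K B T N C Z, ∃ (e' : SE (r := r) K B T N C Z)
      (f : e.s.G →* e'.s.G) (F : e.Γ →* e'.Γ) (Xs : Set e.s.G),
      RE w R0 Φ ε χ e e' f F Xs := by
    intro e
    obtain ⟨G', iG', H', f, Xs, h1, h2, h3, h4, h5, h6⟩ := hstep N hq e.s.G e.s.H e.s.hD e.s.stab
      e.s.acy e.s.tor e.s.ts (exo N ε e.s.Mk) (exo_dvd N hN ε hε e.s.Mk)
      (fun g u => exo_conj N ε e.s.Mk e.s.mkc g u) (exo_inv N ε e.s.Mk)
    exact next_SE e Φ ε χ H' f Xs h1 h2 h3 h4 h5 h6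
  choose nx fx Fx Xx hR using hnext
  let e : ℕ → SE (r := r) K B T N C Z := fun n => Nat.rec e0 (fun _ e => nx e) n
  refine ⟨fun n => (e n).s.G, fun n => (e n).s.grp, fun n => (e n).s.H, fun n => fx (e n),
    fun n => (e n).s.col, fun n => (e n).s.Mk, fun n => Xx (e n), fun n => (e n).Γ,
    fun n => (e n).gr, fun n => (e n).φ, fun n => (e n).ι, fun n => Fx (e n), ?_, ?_⟩
  · have hgen : ∃ x y : FreeGroup (Fin 2), Subgroup.closure {x, y} = ⊤ ∧ x * y ≠ y * x ∧
        H0.len x ≤ 1 ∧ H0.len y ≤ 1 := by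
      refine ⟨FreeGroup.of 0, FreeGroup.of 1, ?_, of_not_commute (by decide), ?_, ?_⟩
      · have h1 : ({FreeGroup.of 0, FreeGroup.of 1} : Set (FreeGroup (Fin 2))) =
            Set.range FreeGroup.of := by
          ext g
          simp only [Set.mem_insert_iff, Set.mem_singleton_iff, Set.mem_range]
          constructor
          · rintro (rfl | rfl)
            · exact ⟨0, rfl⟩
            · exact ⟨1, rfl⟩
          · rintro ⟨i, rfl⟩
            fin_cases i
            · exact Or.inl rfl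
            · exact Or.inr rfl
        rw [h1]
        exact FreeGroup.closure_range_of _
      · exact (hlen0 0).le
      · exact (hlen0 1).le
    exact @Sq.mk r w R0 N C Φ ε (fun n => (e n).s.G) (fun n => (e n).s.grp)
      (fun n => (e n).s.H) (fun n => fx (e n)) (fun n => (e n).s.col) (fun n => (e n).s.Mk)
      (fun n => Xx (e n)) htf hgen (fun n => (e n).s.tor) (fun n => (hR (e n)).rel.st)
      (fun n => (e n).s.ts) (fun n => (e n).s.colc) (fun n => (hR (e n)).rel.colo)
      (fun n => (hR (e n)).rel.coln) (fun n => (e n).s.mkc) (fun n => (e n).s.mku)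
      (fun n => (e n).s.mki) (fun n => (hR (e n)).rel.mka)
  · exact @CE.mk r w C ε (fun n => (e n).s.G) (fun n => (e n).s.grp) (fun n => (e n).s.H)
      (fun n => fx (e n)) (fun n => (e n).s.col) Z iZ χ (fun n => (e n).Γ) (fun n => (e n).gr)
      (fun n => (e n).φ) (fun n => (e n).ι) (fun n => Fx (e n)) (fun n => (e n).sur)
      (fun n => (e n).inj) (fun n => (e n).ker) (fun n => (e n).one) (fun n => (e n).cen)
      (fun n => (hR (e n)).cm) (fun n => (hR (e n)).io) (fun n => (hR (e n)).Fs)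
      (fun n a b j hδ hG => (hR (e (n + 1))).pw _ _ _ _ ((hR (e n)).mg a b j hδ hG))

end Pool.Agent.H319.RAD
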