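import Pool.Agent.H319.RAD.Lim

/-!
# The words and their laws in the central extension by the rational numbers
-/

set_option autoImplicit false

namespace Pool.Agent.H319.RAD

open Pool.Agent.TH54.BU Pool.Agent.Y45.MON Pool.Agent.Y872.MON

section words

variable {G G' : Type} [Group G] [Group G']

/-- the words `vv` at commuting elements, for `δ = 1` -/
theorem vv_one {r : ℕ} (w : WP r) (j : Fin r) (hδ : w.δ j = 1) (a b : G)
    (h : a * b = b * a) : vv w j a b = 1 := by
  have h1 : Commute a b := h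
  have h2 : Commute a (P0 w.M1 a b) := by
    unfold P0
    exact (((Commute.refl a).mul_right h1).mul_right
      (Commute.pow_right (Commute.refl a) _)).mul_right h1.inv_right
  have h3 : X1 w.M1 w.m2 a b = 1 := by
    unfold X1
    rw [(h2.pow_right w.m2).eq, mul_inv_cancel_right, mul_inv_cancel]
  unfold vv Wj
  rw [h3, hδ]
  simp only [one_pow, mul_one, pow_one]
  rw [h, mul_inv_cancel_right, mul_inv_cancel]

/-- the word `w` -/
def ww (w : WP 3) (N : ℕ) (a b : G) : G := vv w 0 a b ^ N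

/-- the words `k m` -/
def kk (w : WP 3) (a b : G) : ℕ → G
  | 0 => vv w 1 a b
  | m + 1 => vv w 2 (kk w a b m) a

theorem map_ww (w : WP 3) (N : ℕ) (φ : G →* G') (a b : G) :
    φ (ww w N a b) = ww w N (φ a) (φ b) := by
  unfold ww
  rw [map_pow, map_vv]

theorem map_kk (w : WP 3) (φ : G →* G') (a b : G) (m : ℕ) :
    φ (kk w a b m) = kk w (φ a) (φ b) m := by
  induction m with
  | zero => exact map_vv w φ 1 a b
  | succ m ih =>
    show φ (vv w 2 (kk w a b m) a) = vv w 2 (kk w (φ a) (φ b) m) (φ a)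
    rw [map_vv, ih]

theorem ww_comm (w : WP 3) (hδ : ∀ j, w.δ j = 1) (N : ℕ) (a b : G) (h : a * b = b * a) :
    ww w N a b = 1 := by
  unfold ww
  rw [vv_one w 0 (hδ 0) a b h, one_pow]

theorem kk_comm (w : WP 3) (hδ : ∀ j, w.δ j = 1) (a b : G) (h : a * b = b * a) (m : ℕ) :
    kk w a b m = 1 := by
  cases m with
  | zero => exact vv_one w 1 (hδ 1) a b h
  | succ m =>
    have ih := kk_comm w hδ a b h m
    show vv w 2 (kk w a b m) a = 1
    exact vv_one w 2 (hδ 2) _ _ (by rw [ih, one_mul, mul_one])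

end words

/-- the colours -/
abbrev Co : Type := ℚ × ℕ

instance : Inhabited Co := ⟨(1, 1)⟩

/-- the colour rules -/
def Ph : Fin 3 → Co → Co → Co := ![fun _ _ => (1, 1), fun c _ => (c.1 / c.2, 1),
  fun c _ => (c.1, c.2 + 1)]

/-- the prescribed values -/
def ch : Fin 3 → Co → Co → Multiplicative ℚ := fun _ c _ => Multiplicative.ofAdd (c.1 / c.2)

/-- a group with the laws which we need -/
structure LW (w : WP 3) (N : ℕ) (Γ : Type) [Group Γ] : Prop where
  cen : ∀ a b c : Γ, ww w N a b * c = c * ww w N a b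
  rt : ∀ (a b : Γ) (m : ℕ), ww w N (kk w a b m) a ^ (m + 1) = ww w N a b

section main

variable {w : WP 3} {N : ℕ} {Γ L : Type} [Group Γ] [Group L] {φ : Γ →* L}
  {ι : Multiplicative ℚ →* Γ} {col : L → Co} {rk : L → ℕ}

theorem kk_prop (M : MonC w N Ph (fun _ _ _ => N) ch Γ L φ ι col rk) (hδ : ∀ j, w.δ j = 1)
    (hN : N ≠ 1) (a b : Γ) (h : a * b ≠ b * a) (m : ℕ) :
    kk w a b m * a ≠ a * kk w a b m ∧
      col (φ (kk w a b m)) = ((col (φ a)).1 / (col (φ a)).2, m + 1) := by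
  have hL : ∀ a b : Γ, a * b ≠ b * a → φ a * φ b ≠ φ b * φ a := fun a b h e => h (M.com a b e)
  have hne : ∀ (j : Fin 3) (a b : Γ), a * b ≠ b * a → φ (vv w j a b) ≠ 1 := by
    intro j a b h e
    rw [map_vv] at e
    have h1 := M.mon.ord j _ _ (hL a b h)
    rw [e, orderOf_one] at h1
    exact hN h1.symm
  have hcc : ∀ (j : Fin 3) (a b c : Γ), a * b ≠ b * a → φ c ≠ 1 →
      rk (φ c) < rk (φ (vv w j a b)) → vv w j a b * c ≠ c * vv w j a b := by
    intro j a b c h hc hr e
    have e1 := congrArg φ e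
    rw [map_mul, map_mul] at e1
    have := M.mon.rkc _ _ (hne j a b h) hc e1
    omega
  have ha : φ a ≠ 1 := by
    intro e
    apply hL a b h
    rw [e, one_mul, mul_one]
  suffices H : kk w a b m * a ≠ a * kk w a b m ∧
      col (φ (kk w a b m)) = ((col (φ a)).1 / (col (φ a)).2, m + 1) ∧
      rk (φ a) < rk (φ (kk w a b m)) from ⟨H.1, H.2.1⟩
  induction m with
  | zero =>
    have h1 := (M.mon.rk1 1 _ _ (hL a b h)).1
    rw [← map_vv] at h1
    refine ⟨hcc 1 a b a h ha h1, ?_, h1⟩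
    show col (φ (vv w 1 a b)) = _
    rw [map_vv, M.mon.clr 1 _ _ (hL a b h)]
    rfl
  | succ m ih =>
    obtain ⟨h1, h2, h3⟩ := ih
    have h4 := (M.mon.rk1 2 _ _ (hL _ _ h1))
    rw [← map_vv] at h4
    refine ⟨hcc 2 _ a a h1 ha h4.2, ?_, h4.2⟩
    show col (φ (vv w 2 (kk w a b m) a)) = _
    rw [map_vv, M.mon.clr 2 _ _ (hL _ _ h1), h2]
    rfl

theorem ww_val (M : MonC w N Ph (fun _ _ _ => N) ch Γ L φ ι col rk) (hδ : ∀ j, w.δ j = 1)
    (a b : Γ) (h : a * b ≠ b * a) :
    ww w N a b = ι (Multiplicative.ofAdd ((col (φ a)).1 / (col (φ a)).2)) :=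
  M.pw a b 0 (hδ 0) h

/-- the laws -/
theorem laws (M : MonC w N Ph (fun _ _ _ => N) ch Γ L φ ι col rk) (hδ : ∀ j, w.δ j = 1)
    (hN : N ≠ 1) : LW w N Γ where
  cen := by
    intro a b c
    by_cases h : a * b = b * a
    · rw [ww_comm w hδ N a b h, one_mul, mul_one]
    · rw [ww_val M hδ a b h, M.cen]
  rt := by
    intro a b m
    by_cases h : a * b = b * a
    · rw [ww_comm w hδ N a b h, kk_comm w hδ a b h m,
        ww_comm w hδ N 1 a (by rw [one_mul, mul_one]), one_pow]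
    · obtain ⟨h1, h2⟩ := kk_prop M hδ hN a b h m
      rw [ww_val M hδ _ _ h1, ww_val M hδ a b h, h2, ← map_pow]
      congr 1
      rw [← ofAdd_nsmul]
      congr 1
      have : (((m + 1 : ℕ) : ℚ)) ≠ 0 := by positivity
      simp only [nsmul_eq_mul]
      push_cast at this ⊢
      field_simp

/-- the word `w` has a nontrivial value -/
theorem ww_inf (M : MonC w N Ph (fun _ _ _ => N) ch Γ L φ ι col rk) (hδ : ∀ j, w.δ j = 1)
    (hN : N ≠ 1) : ∃ a b : Γ, ww w N a b ≠ 1 := by
  obtain ⟨x, y, -, hxy⟩ := M.mon.gen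
  have h1 := (M.mon.rk1 0 x y hxy).1
  have h2 : x ≠ 1 := by
    rintro rfl
    exact hxy (by rw [one_mul, mul_one])
  have h3 : vv w 0 x y ≠ 1 := by
    intro e
    have h4 := M.mon.ord 0 x y hxy
    rw [e, orderOf_one] at h4
    exact hN h4.symm
  have h4 : vv w 0 x y * x ≠ x * vv w 0 x y := by
    intro e
    have := M.mon.rkc _ _ h3 h2 e
    omega
  have h5 : col (vv w 0 x y) = (1, 1) := M.mon.clr 0 x y hxy
  obtain ⟨a, ha⟩ := M.sur (vv w 0 x y)
  obtain ⟨b, hb⟩ := M.sur x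
  refine ⟨a, b, ?_⟩
  have hab : a * b ≠ b * a := by
    intro e
    apply h4
    rw [← ha, ← hb, ← map_mul, e, map_mul]
  rw [ww_val M hδ a b hab, ha, h5]
  intro e
  have e1 := M.inj (e.trans (map_one ι).symm)
  have e2 : ((1 : ℚ) / ((1 : ℕ) : ℚ)) = 0 := by
    have := congrArg Multiplicative.toAdd e1
    simpa using this
  norm_num at e2

/-- values of `w` are in the rational line -/
theorem ww_range (M : MonC w N Ph (fun _ _ _ => N) ch Γ L φ ι col rk) (hδ : ∀ j, w.δ j = 1)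
    (a b : Γ) : ww w N a b ∈ ι.range := by
  by_cases h : a * b = b * a
  · rw [ww_comm w hδ N a b h]
    exact ι.range.one_mem
  · rw [ww_val M hδ a b h]
    exact ⟨_, rfl⟩

theorem tors (M : MonC w N Ph (fun _ _ _ => N) ch Γ L φ ι col rk) (g : Γ) (hg : g ∈ ι.range)
    (n : ℕ) (hn : 1 ≤ n) (h : g ^ n = 1) : g = 1 := by
  obtain ⟨z, rfl⟩ := hg
  rw [← map_pow] at h
  have h1 : z ^ n = 1 := M.inj (by rw [h, map_one])
  have h2 : n • (Multiplicative.toAdd z) = 0 := by
    rw [← toAdd_pow, h1, toAdd_one]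
  have h3 : Multiplicative.toAdd z = 0 := by
    rcases smul_eq_zero.1 h2 with h | h
    · omega
    · exact h
  have h4 : z = 1 := h3
  rw [h4, map_one]

end main

end Pool.Agent.H319.RAD
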